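import Mathlib
import Pool.Agent.Helper10K9.FlagDefs
import Pool.Agent.Helper10K9.KO
import Pool.Agent.Helper27K9.FlagFrame
import Pool.Agent.Helper59K9.FlagSphere

/-!
# The smallest dimension admitting a transverse `n`-sphere of full flags

`d(1) = 2` and `d(n) = 2 ^ (φ(n) + 1) - 1` for `n ≥ 2`, where `φ(n)` is the number of `i` with
`1 ≤ i ≤ n` and `i ≡ 0, 1, 2, 4` modulo `8`.

Upper bound: `φ` and Clifford modules. Lower bound: a transverse sphere yields a continuous family
of invertible matrices `A(x)`, `x ∈ S^n`, with `A(-x) = A(x) w`, where `w` is a symmetric involution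
of trace `0` or `±1`; the divisibility theorem `ko_bound` (proved here from scratch through finite
matrices) says that `2 ^ (φ(n) + 1)` divides `d - tr w`.
-/

set_option autoImplicit false

open Matrix Pool.Agent.Helper10K9.FS

namespace Pool.Agent.Results.MP_266556_gt.SmallestDimension

/-- The signed reversal. -/
def rv {d : ℕ} (ε : Fin d → ℝ) : Matrix (Fin d) (Fin d) ℝ :=
  Matrix.of fun i j => if i = j.rev then ε j else 0

theorem rv_symm {d : ℕ} {ε : Fin d → ℝ} (h : ∀ i, ε i.rev = ε i) : (rv ε)ᵀ = rv ε := by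
  ext i j
  rw [Matrix.transpose_apply, rv, Matrix.of_apply, Matrix.of_apply]
  by_cases hc : i = j.rev
  · rw [if_pos hc, if_pos (by rw [hc, Fin.rev_rev]), hc, h]
  · rw [if_neg hc, if_neg (fun h' => hc (by rw [h', Fin.rev_rev]))]

theorem mul_rv {d : ℕ} (ε : Fin d → ℝ) (A : Matrix (Fin d) (Fin d) ℝ) (i j : Fin d) :
    (A * rv ε) i j = ε j * A i j.rev := by
  rw [Matrix.mul_apply, Finset.sum_eq_single j.rev]
  · rw [rv, Matrix.of_apply, if_pos rfl, mul_comm]
  · intro k _ hk
    rw [rv, Matrix.of_apply, if_neg hk, mul_zero]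
  · intro h; exact absurd (Finset.mem_univ _) h

theorem rv_sq {d : ℕ} {ε : Fin d → ℝ} (h1 : ∀ i, ε i = 1 ∨ ε i = -1) (h : ∀ i, ε i.rev = ε i) :
    rv ε * rv ε = 1 := by
  ext i j
  rw [mul_rv, rv, Matrix.of_apply, Fin.rev_rev, h]
  by_cases hc : i = j
  · subst hc
    rw [if_pos rfl, Matrix.one_apply_eq]
    rcases h1 i with h' | h' <;> rw [h'] <;> norm_num
  · rw [if_neg hc, Matrix.one_apply_ne hc, mul_zero]

theorem rv_trace {d : ℕ} {ε : Fin d → ℝ} (h1 : ∀ i, ε i = 1 ∨ ε i = -1) :
    (rv ε).trace ≤ 1 ∧ -1 ≤ (rv ε).trace := by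
  rw [Matrix.trace]
  simp only [Matrix.diag_apply, rv, Matrix.of_apply]
  by_cases hex : ∃ i : Fin d, i = i.rev
  · obtain ⟨i, hi⟩ := hex
    rw [Finset.sum_eq_single i]
    · rw [if_pos hi]
      rcases h1 i with h' | h' <;> rw [h'] <;> norm_num
    · intro k _ hk
      rw [if_neg]
      intro hk'
      apply hk
      have e1 := congrArg Fin.val hi
      have e2 := congrArg Fin.val hk'
      rw [Fin.val_rev] at e1 e2
      apply Fin.ext
      omega
    · intro h; exact absurd (Finset.mem_univ _) h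
  · push Not at hex
    rw [Finset.sum_eq_zero (fun i _ => if_neg (hex i))]
    norm_num

/-- The smallest dimension `d` such that there is a transverse `n`-sphere of full flags of `ℝ^d` is
`2` for `n = 1` and `2 ^ (φ(n) + 1) - 1` for `n ≥ 2`. -/
theorem result (n : ℕ) (hn : 1 ≤ n) :
    IsLeast {d : ℕ | 2 ≤ d ∧ ∃ S : Set (FullFlag d), IsTransverseSphere n S}
      (if n = 1 then 2 else 2 ^ (phi n + 1) - 1) := by
  have hphi : 1 ≤ phi n := by
    unfold phi
    rw [Nat.one_le_iff_ne_zero, Finset.card_ne_zero]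
    exact ⟨1, by simp [hn]⟩
  split_ifs with h1
  · subst h1
    exact ⟨⟨le_rfl, Pool.Agent.Helper59K9.FlagSphere.exists_circle⟩, fun d hd => hd.1⟩
  · constructor
    · refine ⟨?_, Pool.Agent.Helper59K9.FlagSphere.exists_sphere hn⟩
      have : 2 ^ 2 ≤ 2 ^ (phi n + 1) := Nat.pow_le_pow_right (by norm_num) (by omega)
      omega
    · rintro d ⟨hd, S, hS⟩
      obtain ⟨ε, A, e1, e2, hA, hdet, hneg⟩ :=
        Pool.Agent.Helper27K9.FlagFrame.exists_frame (n := n) (by omega) S hS
      obtain ⟨k, hk⟩ := Pool.Agent.Helper10K9.KO.ko_bound hn (rv_symm e2) (rv_sq e1 e2) hA hdet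
        (fun x hx => by
          ext i j
          rw [hneg x hx, mul_rv])
      obtain ⟨t1, t2⟩ := rv_trace e1
      have hd' : (2 : ℝ) ≤ d := by exact_mod_cast hd
      have hpos : (0 : ℝ) < 2 ^ (phi n + 1) * (k : ℝ) := by linarith
      have hp : (0 : ℝ) < 2 ^ (phi n + 1) := by positivity
      have hk0 : (0 : ℝ) < k := by
        by_contra hc
        push Not at hc
        nlinarith
      have hk1 : (1 : ℤ) ≤ k := by
        have : (0 : ℤ) < k := by exact_mod_cast hk0
        omega
      have hk1' : (1 : ℝ) ≤ k := by exact_mod_cast hk1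
      have hfin : (2 : ℝ) ^ (phi n + 1) ≤ d + 1 := by nlinarith
      have hfin' : 2 ^ (phi n + 1) ≤ d + 1 := by exact_mod_cast hfin
      omega

end Pool.Agent.Results.MP_266556_gt.SmallestDimension
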